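import Mathlib

set_option autoImplicit false

namespace Pool.Agent.Lib.MP_41af23_an

/-- `x` is a coatom of the ordered set (maximal among the non-maximal elements). -/
def Coat {P : Type*} [PartialOrder P] (x : P) : Prop := Maximal (fun y => ∃ z, y < z) x

theorem Coat.map {P Q : Type*} [PartialOrder P] [PartialOrder Q] (e : P ≃o Q) {x : P}
    (hx : Coat x) : Coat (e x) := by
  obtain ⟨⟨z, hz⟩, h2⟩ := hx
  refine ⟨⟨e z, e.lt_iff_lt.2 hz⟩, ?_⟩
  rintro y ⟨w, hw⟩ hy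
  have h3 : ∃ z, e.symm y < z := ⟨e.symm w, e.symm.lt_iff_lt.2 hw⟩
  have h4 : x ≤ e.symm y := by
    rw [← e.le_iff_le, e.apply_symm_apply]; exact hy
  have h5 := h2 h3 h4
  rw [← e.le_iff_le, e.apply_symm_apply] at h5
  exact h5

theorem card_coat_eq {P Q : Type*} [PartialOrder P] [PartialOrder Q] (e : P ≃o Q) :
    Nat.card {x : P // Coat x} = Nat.card {x : Q // Coat x} := by
  apply Nat.card_congr
  exact {
    toFun := fun x => ⟨e x.1, x.2.map e⟩
    invFun := fun x => ⟨e.symm x.1, x.2.map e.symm⟩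
    left_inv := fun x => by simp
    right_inv := fun x => by simp }

section Abs

variable {V : Type*} [AddCommGroup V] [Module ℝ V] {K : PointedCone ℝ V} {M : Submodule ℝ V}
  {ι : Type*} [Fintype ι] {l : ι → V →ₗ[ℝ] ℝ}

/-- the face of `K` where `l i` vanishes -/
def fc (K : PointedCone ℝ V) (f : V →ₗ[ℝ] ℝ) : PointedCone ℝ V where
  carrier := {v | v ∈ K ∧ f v = 0}
  add_mem' := fun ha hb => ⟨K.add_mem ha.1 hb.1, by rw [map_add, ha.2, hb.2, add_zero]⟩
  zero_mem' := ⟨K.zero_mem, map_zero f⟩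
  smul_mem' := fun c x hx => ⟨K.smul_mem c.2 hx.1, by
    change f (c.1 • x) = 0
    rw [map_smul, hx.2, smul_zero]⟩

theorem mem_fc {f : V →ₗ[ℝ] ℝ} {v : V} : v ∈ fc K f ↔ v ∈ K ∧ f v = 0 := Iff.rfl

theorem fc_isFace {f : V →ₗ[ℝ] ℝ} (hf : ∀ v ∈ K, 0 ≤ f v) : (fc K f).IsFaceOf K := by
  refine ⟨fun v hv => hv.1, ?_⟩
  intro x y a hx hy ha hxy
  refine ⟨hx, ?_⟩
  have h1 := hxy.2
  rw [map_add, map_smul, smul_eq_mul] at h1
  have h2 := hf x hx
  have h3 := hf y hy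
  nlinarith [mul_nonneg ha.le h2]

theorem proper_le (hK : ∀ v, v ∈ K ↔ v ∈ M ∧ ∀ i, 0 ≤ l i v) {F : PointedCone ℝ V}
    (hF : F.IsFaceOf K) (hne : F ≠ K) : ∃ i, F ≤ fc K (l i) := by
  classical
  by_contra hcon
  push Not at hcon
  have h1 : ∀ i, ∃ v ∈ F, 0 < l i v := by
    intro i
    by_contra h2
    push Not at h2
    apply hcon i
    intro v hv
    have hvK : v ∈ K := hF.1 hv
    exact ⟨hvK, le_antisymm (h2 v hv) (((hK v).1 hvK).2 i)⟩
  choose w hw hwp using h1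
  set s := ∑ i, w i with hs
  have hsF : s ∈ F := F.sum_mem (fun i _ => hw i)
  have hsp : ∀ i, 0 < l i s := by
    intro i
    rw [hs, map_sum]
    exact Finset.sum_pos' (fun j _ => ((hK _).1 (hF.1 (hw j))).2 i)
      ⟨i, Finset.mem_univ _, hwp i⟩
  apply hne
  apply le_antisymm hF.1
  intro y hy
  -- choose ε
  have hε : ∃ ε : ℝ, 0 < ε ∧ ∀ i, ε * l i y ≤ l i s := by
    have hex : ∃ ε : ℝ, 0 < ε ∧ ∀ i ∈ (Finset.univ : Finset ι), ε * l i y ≤ l i s := by
      induction (Finset.univ : Finset ι) using Finset.induction_on with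
      | empty => exact ⟨1, one_pos, by simp⟩
      | insert j t _ ih =>
        obtain ⟨ε, hε, h⟩ := ih
        have hy0 : ∀ i, 0 ≤ l i y := ((hK y).1 hy).2
        refine ⟨min ε (l j s / (l j y + 1)), lt_min hε (div_pos (hsp j) (by linarith [hy0 j])), ?_⟩
        intro i hi
        rcases Finset.mem_insert.1 hi with rfl | hi
        · calc min ε (l i s / (l i y + 1)) * l i y ≤ (l i s / (l i y + 1)) * l i y :=
              mul_le_mul_of_nonneg_right (min_le_right _ _) (hy0 i)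
            _ ≤ l i s := by
              rw [div_mul_eq_mul_div, div_le_iff₀ (by linarith [hy0 i])]
              nlinarith [hsp i, hy0 i]
        · exact (mul_le_mul_of_nonneg_right (min_le_left _ _) (hy0 i)).trans (h i hi)
    obtain ⟨ε, h1, h2⟩ := hex
    exact ⟨ε, h1, fun i => h2 i (Finset.mem_univ _)⟩
  obtain ⟨ε, hε0, hε⟩ := hε
  have hy' : s - ε • y ∈ K := by
    rw [hK]
    refine ⟨M.sub_mem ((hK _).1 (hF.1 hsF)).1 (M.smul_mem _ ((hK _).1 hy).1), ?_⟩
    intro i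
    rw [map_sub, map_smul, smul_eq_mul]
    linarith [hε i]
  exact hF.2 hy hy' hε0 (by rw [add_sub_cancel]; exact hsF)

theorem card_coat (hK : ∀ v, v ∈ K ↔ v ∈ M ∧ ∀ i, 0 ≤ l i v)
    (hw : ∀ i j, i ≠ j → ∃ w ∈ K, l i w = 0 ∧ 0 < l j w) (h2 : ∀ i : ι, ∃ j, j ≠ i) :
    Nat.card {x : {F : PointedCone ℝ V // F.IsFaceOf K} // Coat x} = Fintype.card ι := by
  classical
  have hpos : ∀ i, ∀ v ∈ K, 0 ≤ l i v := fun i v hv => ((hK v).1 hv).2 i
  have hface : ∀ i, (fc K (l i)).IsFaceOf K := fun i => fc_isFace (hpos i)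
  have hne : ∀ i, fc K (l i) ≠ K := by
    intro i h
    obtain ⟨j, hj⟩ := h2 i
    obtain ⟨w, hwK, _, hwi⟩ := hw j i hj
    rw [← h] at hwK
    exact hwi.ne' hwK.2
  have hinj : ∀ i j, fc K (l i) ≤ fc K (l j) → i = j := by
    intro i j h
    by_contra hij
    obtain ⟨w, hwK, hwi, hwj⟩ := hw i j hij
    exact hwj.ne' (h (show w ∈ fc K (l i) from ⟨hwK, hwi⟩)).2
  have htop : ∀ F : {F : PointedCone ℝ V // F.IsFaceOf K}, (∃ G, F < G) ↔ F.1 ≠ K := by
    intro F
    constructor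
    · rintro ⟨G, hG⟩ h
      have h1 : F.1 < G.1 := hG
      rw [h] at h1
      exact absurd G.2.1 (not_le_of_gt h1)
    · intro h
      exact ⟨⟨K, PointedCone.IsFaceOf.refl K⟩, lt_of_le_of_ne (show F.1 ≤ K from F.2.1)
        (fun h' => h (congrArg Subtype.val h'))⟩
  have hcoat : ∀ i, Coat (⟨fc K (l i), hface i⟩ : {F : PointedCone ℝ V // F.IsFaceOf K}) := by
    intro i
    refine ⟨(htop _).2 (hne i), ?_⟩
    intro F hF hle
    obtain ⟨j, hj⟩ := proper_le hK F.2 ((htop F).1 hF)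
    have h1 : fc K (l i) ≤ fc K (l j) := le_trans hle hj
    have h3 := hinj i j h1
    subst h3
    exact hj
  rw [← Nat.card_eq_fintype_card]
  symm
  apply Nat.card_congr
  apply Equiv.ofBijective (fun i => (⟨⟨fc K (l i), hface i⟩, hcoat i⟩ :
    {x : {F : PointedCone ℝ V // F.IsFaceOf K} // Coat x}))
  constructor
  · intro i j h
    have h1 : fc K (l i) = fc K (l j) := congrArg (fun x => x.1.1) h
    exact hinj i j h1.le
  · rintro ⟨F, hF⟩
    obtain ⟨i, hi⟩ := proper_le hK F.2 ((htop F).1 hF.1)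
    refine ⟨i, ?_⟩
    apply Subtype.ext
    exact le_antisymm (hF.2 ((htop _).2 (hne i)) hi) hi

end Abs

end Pool.Agent.Lib.MP_41af23_an
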