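import Mathlib

set_option autoImplicit false

namespace Pool.Agent.Lib.MP_41af23_an

open MeasureTheory

/-- The chirotope `χ(a,b,c)`: the sign of `det (1 1 1; x_a x_b x_c; y_a y_b y_c)`. -/
noncomputable def chi (a b c : ℂ) : SignType :=
  SignType.sign (Matrix.det !![1, 1, 1; a.re, b.re, c.re; a.im, b.im, c.im])

/-- `S` contains three non-collinear points. -/
def Spanning (S : Finset ℂ) : Prop := ∃ a ∈ S, ∃ b ∈ S, ∃ c ∈ S, chi a b c ≠ 0

/-- `S` and `S'` have the same oriented matroid. -/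
def SameOM (S S' : Finset ℂ) : Prop :=
  ∃ φ : S ≃ S', ∀ a b c : S, chi (φ a) (φ b) (φ c) = chi a b c

/-- The measure `χ_Δ dx dy` of the closed triangle `Δ` with vertices `a, b, c`. -/
noncomputable def tri (a b c : ℂ) : SignedMeasure ℂ :=
  volume.withDensityᵥ ((convexHull ℝ {a, b, c}).indicator fun _ => (1 : ℝ))

/-- `M^ℝ(S)`: the real span of the measures of the triangles with vertices in `S`. -/
noncomputable def MR (S : Finset ℂ) : Submodule ℝ (SignedMeasure ℂ) :=
  Submodule.span ℝ {μ | ∃ a ∈ S, ∃ b ∈ S, ∃ c ∈ S, chi a b c ≠ 0 ∧ μ = tri a b c}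

/-- `K_pos(S)`: the cone of the nonnegative measures in `M^ℝ(S)`. -/
noncomputable def Kpos (S : Finset ℂ) : PointedCone ℝ (SignedMeasure ℂ) where
  carrier := {μ | μ ∈ MR S ∧ 0 ≤ μ}
  add_mem' := fun ha hb => ⟨(MR S).add_mem ha.1 hb.1, add_nonneg ha.2 hb.2⟩
  zero_mem' := ⟨(MR S).zero_mem, le_refl 0⟩
  smul_mem' := fun c _ hx => ⟨(MR S).smul_mem c.1 hx.1, fun i hi =>
    mul_nonneg c.2 (hx.2 i hi)⟩

/-- The face lattice of a cone `K`: all faces of `K`, ordered by inclusion. -/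
abbrev FaceLattice (K : PointedCone ℝ (SignedMeasure ℂ)) : Type :=
  {F : PointedCone ℝ (SignedMeasure ℂ) // F.IsFaceOf K}

end Pool.Agent.Lib.MP_41af23_an
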