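import Mathlib
import Pool.Agent.Lib.MP_41af23_an.Defs
import Pool.Agent.Lib.MP_41af23_an.Abs

set_option autoImplicit false

namespace Pool.Agent.Lib.MP_41af23_an

open MeasureTheory

/-- orientation determinant -/
def d (a b z : ℂ) : ℝ := (b.re - a.re) * (z.im - a.im) - (b.im - a.im) * (z.re - a.re)

/-- integer points -/
def toC (p : ℤ × ℤ) : ℂ := ⟨p.1, p.2⟩

/-- integer orientation determinant -/
def dz (a b c : ℤ × ℤ) : ℤ := (b.1 - a.1) * (c.2 - a.2) - (b.2 - a.2) * (c.1 - a.1)

theorem toC_inj : Function.Injective toC := by
  intro a b h
  have h1 := congrArg Complex.re h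
  have h2 := congrArg Complex.im h
  simp only [toC] at h1 h2
  exact Prod.ext (by exact_mod_cast h1) (by exact_mod_cast h2)

theorem d_toC (a b c : ℤ × ℤ) : d (toC a) (toC b) (toC c) = dz a b c := by
  simp only [d, toC, dz]
  push_cast
  ring

theorem chi_eq (a b c : ℂ) : chi a b c = SignType.sign (d a b c) := by
  unfold chi d
  congr 1
  rw [Matrix.det_fin_three]
  simp
  ring

theorem sign_intCast (n : ℤ) : SignType.sign (n : ℝ) = SignType.sign n := by
  rcases lt_trichotomy n 0 with h | h | h
  · rw [sign_neg h, sign_neg (by exact_mod_cast h)]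
  · rw [h]; simp
  · rw [sign_pos h, sign_pos (by exact_mod_cast h)]

theorem chi_toC (a b c : ℤ × ℤ) : chi (toC a) (toC b) (toC c) = SignType.sign (dz a b c) := by
  rw [chi_eq, d_toC, sign_intCast]

theorem d_swap (a b z : ℂ) : d b a z = - d a b z := by unfold d; ring

theorem d_rot (a b z : ℂ) : d b z a = d a b z := by unfold d; ring

theorem mem_tri {a b c z : ℂ} (hD : d a b c ≠ 0) : z ∈ convexHull ℝ {a, b, c} ↔
    0 ≤ d a b c * d a b z ∧ 0 ≤ d a b c * d b c z ∧ 0 ≤ d a b c * d c a z := by
  have hconv : ∀ (D : ℝ) (u v : ℂ), Convex ℝ {z | 0 ≤ D * d u v z} := by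
    intro D u v x hx y hy s t hs ht hst
    simp only [Set.mem_ofPred_eq] at hx hy ⊢
    have h1 : D * d u v (s • x + t • y) = s * (D * d u v x) + t * (D * d u v y) := by
      have hs' : s = 1 - t := by linarith
      subst hs'
      simp only [d, Complex.add_re, Complex.add_im, Complex.real_smul, Complex.mul_re,
        Complex.mul_im, Complex.ofReal_re, Complex.ofReal_im, zero_mul, sub_zero, add_zero]
      ring
    rw [h1]
    positivity
  have hpos : 0 ≤ d a b c * d a b c := mul_self_nonneg _
  constructor
  · intro hz
    refine ⟨?_, ?_, ?_⟩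
    · refine convexHull_min ?_ (hconv (d a b c) a b) hz
      rintro w (rfl | rfl | rfl)
      · simp [d]
      · have : d a w w = 0 := by unfold d; ring
        simp [this]
      · exact hpos
    · refine convexHull_min ?_ (hconv (d a b c) b c) hz
      rintro w (rfl | rfl | rfl)
      · have : d b c w = d w b c := by unfold d; ring
        simp only [Set.mem_ofPred_eq]
        rw [this]; exact mul_self_nonneg _
      · simp [d]
      · have : d b w w = 0 := by unfold d; ring
        simp [this]
    · refine convexHull_min ?_ (hconv (d a b c) c a) hz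
      rintro w (rfl | rfl | rfl)
      · have : d c w w = 0 := by unfold d; ring
        simp [this]
      · have : d c a w = d a w c := by unfold d; ring
        simp only [Set.mem_ofPred_eq]
        rw [this]; exact mul_self_nonneg _
      · simp [d]
  · rintro ⟨h1, h2, h3⟩
    have hD2 : 0 < d a b c * d a b c := mul_self_pos.2 hD
    have hne := hD2.ne'
    have hw := (convex_convexHull ℝ ({a, b, c} : Set ℂ)).sum_mem (t := (Finset.univ : Finset (Fin 3)))
      (w := ![(d a b c * d b c z) / (d a b c * d a b c), (d a b c * d c a z) / (d a b c * d a b c),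
        (d a b c * d a b z) / (d a b c * d a b c)]) (z := ![a, b, c]) (by
        intro i _
        fin_cases i
        · exact div_nonneg h2 hD2.le
        · exact div_nonneg h3 hD2.le
        · exact div_nonneg h1 hD2.le) (by
        simp only [Fin.sum_univ_three, Matrix.cons_val_zero, Matrix.cons_val_one,
          Matrix.cons_val]
        rw [← add_div, ← add_div, div_eq_one_iff_eq hne]
        unfold d
        ring) (by
        intro i _
        fin_cases i
        · exact subset_convexHull ℝ _ (by simp)
        · exact subset_convexHull ℝ _ (by simp)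
        · exact subset_convexHull ℝ _ (by simp))
    simp only [Fin.sum_univ_three, Matrix.cons_val_zero, Matrix.cons_val_one,
          Matrix.cons_val] at hw
    have hz : z = (d a b c * d b c z / (d a b c * d a b c)) • a +
        (d a b c * d c a z / (d a b c * d a b c)) • b +
        (d a b c * d a b z / (d a b c * d a b c)) • c := by
      have e : ∀ t, d a b c * t / (d a b c * d a b c) = t / d a b c := by
        intro t; field_simp
      rw [e, e, e]
      apply Complex.ext
      · simp only [Complex.add_re, Complex.real_smul, Complex.mul_re,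
          Complex.ofReal_re, Complex.ofReal_im, zero_mul, sub_zero]
        rw [div_mul_eq_mul_div, div_mul_eq_mul_div, div_mul_eq_mul_div, ← add_div, ← add_div,
          eq_div_iff hD]
        unfold d
        ring
      · simp only [Complex.add_im, Complex.real_smul, Complex.mul_im,
          Complex.ofReal_re, Complex.ofReal_im, zero_mul, add_zero]
        rw [div_mul_eq_mul_div, div_mul_eq_mul_div, div_mul_eq_mul_div, ← add_div, ← add_div,
          eq_div_iff hD]
        unfold d
        ring
    rw [hz]
    exact hw

end Pool.Agent.Lib.MP_41af23_an
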