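import Mathlib
import Pool.Agent.Lib.MP_41af23_an.Geo

set_option autoImplicit false

namespace Pool.Agent.Lib.MP_41af23_an

open MeasureTheory

/-- membership of an integer point in an integer triangle -/
abbrev ins (a b c q : ℤ × ℤ) : Prop :=
  0 ≤ dz a b c * dz a b q ∧ 0 ≤ dz a b c * dz b c q ∧ 0 ≤ dz a b c * dz c a q

/-- the open chamber of the sample point `q` -/
def cell (P : Fin 6 → ℤ × ℤ) (q : ℤ × ℤ) : Set ℂ :=
  {z : ℂ | ∀ i j, i ≠ j → 0 < (dz (P i) (P j) q : ℝ) * d (toC (P i)) (toC (P j)) z}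

/-- combinatorial data of a hexagon with sample points in all the chambers -/
structure Data (N : ℕ) (P : Fin 6 → ℤ × ℤ) (Q : Fin N → ℤ × ℤ) : Prop where
  gen : ∀ i j k, i ≠ j → j ≠ k → i ≠ k → dz (P i) (P j) (P k) ≠ 0
  side : ∀ i j, 0 ≤ dz (P i) (P (i + 1)) (P j)
  gen' : ∀ k i j, i ≠ j → dz (P i) (P j) (Q k) ≠ 0
  sep : ∀ k l, k ≠ l → ∃ i j m, i ≠ j ∧ j ≠ m ∧ i ≠ m ∧ ins (P i) (P j) (P m) (Q l) ∧
    ¬ ins (P i) (P j) (P m) (Q k)
  cov : ∀ z : ℂ, (∀ i j, i ≠ j → d (toC (P i)) (toC (P j)) z ≠ 0) →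
    (∀ i, 0 < d (toC (P i)) (toC (P (i + 1))) z) → ∃ k, z ∈ cell P (Q k)

theorem cont_d (a b : ℂ) : Continuous (fun z => d a b z) := by
  unfold d
  fun_prop

theorem isOpen_cell (P : Fin 6 → ℤ × ℤ) (q : ℤ × ℤ) : IsOpen (cell P q) := by
  have h : cell P q = ⋂ i, ⋂ j, ⋂ (_ : i ≠ j),
      {z : ℂ | 0 < (dz (P i) (P j) q : ℝ) * d (toC (P i)) (toC (P j)) z} := by
    ext z
    simp [cell]
  rw [h]
  refine isOpen_iInter_of_finite (fun i => isOpen_iInter_of_finite (fun j =>
    isOpen_iInter_of_finite (fun _ => ?_)))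
  exact isOpen_lt continuous_const (continuous_const.mul (cont_d _ _))

theorem sign_iff {D s t : ℝ} (h : 0 < s * t) : 0 ≤ D * t ↔ 0 ≤ D * s := by
  rcases pos_and_pos_or_neg_and_neg_of_mul_pos h with ⟨hs, ht⟩ | ⟨hs, ht⟩
  · rw [mul_nonneg_iff_of_pos_right hs, mul_nonneg_iff_of_pos_right ht]
  · constructor
    · intro h1
      have : D ≤ 0 := by
        by_contra hD
        push Not at hD
        exact absurd (mul_neg_of_pos_of_neg hD ht) (not_lt.2 h1)
      exact mul_nonneg_of_nonpos_of_nonpos this hs.le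
    · intro h1
      have : D ≤ 0 := by
        by_contra hD
        push Not at hD
        exact absurd (mul_neg_of_pos_of_neg hD hs) (not_lt.2 h1)
      exact mul_nonneg_of_nonpos_of_nonpos this ht.le

variable {N : ℕ} {P : Fin 6 → ℤ × ℤ} {Q : Fin N → ℤ × ℤ}

theorem mem_tri_cell (hd : Data N P Q) {z : ℂ} {k : Fin N} (hz : z ∈ cell P (Q k))
    {i j m : Fin 6} (hij : i ≠ j) (hjm : j ≠ m) (him : i ≠ m) :
    z ∈ convexHull ℝ {toC (P i), toC (P j), toC (P m)} ↔ ins (P i) (P j) (P m) (Q k) := by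
  have hD : d (toC (P i)) (toC (P j)) (toC (P m)) ≠ 0 := by
    rw [d_toC]; exact_mod_cast hd.gen i j m hij hjm him
  rw [mem_tri hD]
  rw [sign_iff (hz i j hij), sign_iff (hz j m hjm), sign_iff (hz m i him.symm), d_toC]
  unfold ins
  norm_cast

/-- the set of the generic points -/
theorem ae_generic (hd : Data N P Q) :
    ∀ᵐ z : ℂ, ∀ i j, i ≠ j → d (toC (P i)) (toC (P j)) z ≠ 0 := by
  rw [ae_all_iff]; intro i
  rw [ae_all_iff]; intro j
  by_cases hij : i = j
  · simp [hij]
  · have : ∃ m, j ≠ m ∧ i ≠ m := by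
      revert i j; decide
    obtain ⟨m, hjm, him⟩ := this
    let A : AffineSubspace ℝ ℂ := {
      carrier := {z | d (toC (P i)) (toC (P j)) z = 0}
      smul_vsub_vadd_mem' := by
        intro c x y w hx hy hw
        simp only [Set.mem_ofPred_eq] at hx hy hw ⊢
        have h1 : d (toC (P i)) (toC (P j)) (c • (x -ᵥ y) +ᵥ w) =
            c * (d (toC (P i)) (toC (P j)) x - d (toC (P i)) (toC (P j)) y) +
              d (toC (P i)) (toC (P j)) w := by
          simp only [d, vsub_eq_sub, vadd_eq_add, Complex.real_smul, Complex.add_re,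
            Complex.add_im, Complex.mul_re, Complex.mul_im, Complex.ofReal_re,
            Complex.ofReal_im, Complex.sub_re, Complex.sub_im, zero_mul, sub_zero, add_zero]
          ring
        rw [h1, hx, hy, hw]
        ring }
    have hA : A ≠ ⊤ := by
      intro h
      have h1 : toC (P m) ∈ A := by rw [h]; trivial
      have h2 : d (toC (P i)) (toC (P j)) (toC (P m)) = 0 := h1
      rw [d_toC] at h2
      exact hd.gen i j m hij hjm him (by exact_mod_cast h2)
    have h0 := Measure.addHaar_affineSubspace (volume : Measure ℂ) A hA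
    have h3 : ∀ᵐ z : ℂ, z ∉ (A : Set ℂ) := measure_eq_zero_iff_ae_notMem.1 h0
    filter_upwards [h3] with z hz _ h
    exact hz h

theorem mem_cell_self (hd : Data N P Q) (k : Fin N) : toC (Q k) ∈ cell P (Q k) := by
  intro i j hij
  rw [d_toC]
  exact mul_self_pos.2 (by exact_mod_cast hd.gen' k i j hij)

theorem disj (hd : Data N P Q) {z : ℂ} {k l : Fin N} (hk : z ∈ cell P (Q k))
    (hl : z ∈ cell P (Q l)) : k = l := by
  by_contra hkl
  obtain ⟨i, j, m, hij, hjm, him, h1, h2⟩ := hd.sep k l hkl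
  exact h2 ((mem_tri_cell hd hk hij hjm him).1 ((mem_tri_cell hd hl hij hjm him).2 h1))

theorem tri_compact (a b c : ℂ) : IsCompact (convexHull ℝ {a, b, c}) :=
  Set.Finite.isCompact_convexHull ℝ (Set.toFinite _)

theorem vol_cell (hd : Data N P Q) (hN : 2 ≤ N) (k : Fin N) :
    volume (cell P (Q k)) ≠ ⊤ := by
  have : ∃ l : Fin N, l ≠ k := by
    by_cases hk : k = ⟨0, by omega⟩
    · exact ⟨⟨1, by omega⟩, by rw [hk]; simp⟩
    · exact ⟨⟨0, by omega⟩, fun h => hk h.symm⟩
  obtain ⟨l, hl⟩ := this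
  obtain ⟨i, j, m, hij, hjm, him, h1, h2⟩ := hd.sep l k hl
  apply ne_top_of_le_ne_top ((tri_compact (toC (P i)) (toC (P j)) (toC (P m))).measure_lt_top (μ := volume)).ne
  apply measure_mono
  intro z hz
  exact (mem_tri_cell hd hz hij hjm him).2 h1

theorem vol_cell_pos (hd : Data N P Q) (hN : 2 ≤ N) (k : Fin N) :
    0 < (volume (cell P (Q k))).toReal :=
  ENNReal.toReal_pos ((isOpen_cell P (Q k)).measure_pos _ ⟨_, mem_cell_self hd k⟩).ne'
    (vol_cell hd hN k)

/-- indicator of the chamber -/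
noncomputable def ch (P : Fin 6 → ℤ × ℤ) (q : ℤ × ℤ) : ℂ → ℝ :=
  (cell P q).indicator fun _ => (1 : ℝ)

theorem ch_int (hd : Data N P Q) (hN : 2 ≤ N) (k : Fin N) :
    Integrable (ch P (Q k)) volume :=
  (integrable_indicator_iff (isOpen_cell P (Q k)).measurableSet).2
    (integrableOn_const (vol_cell hd hN k))

/-- the measure of the chamber -/
noncomputable def beta (P : Fin 6 → ℤ × ℤ) (q : ℤ × ℤ) : SignedMeasure ℂ :=
  volume.withDensityᵥ (ch P q)

theorem beta_apply (hd : Data N P Q) (hN : 2 ≤ N) (k : Fin N) {s : Set ℂ}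
    (hs : MeasurableSet s) : beta P (Q k) s = (volume (cell P (Q k) ∩ s)).toReal := by
  unfold beta
  rw [withDensityᵥ_apply (ch_int hd hN k) hs]
  unfold ch
  rw [setIntegral_indicator (isOpen_cell P (Q k)).measurableSet, setIntegral_const, smul_eq_mul,
    mul_one, Set.inter_comm]
  rfl

theorem beta_nonneg (hd : Data N P Q) (hN : 2 ≤ N) (k : Fin N) : 0 ≤ beta P (Q k) := by
  intro s hs
  rw [beta_apply hd hN k hs]
  exact ENNReal.toReal_nonneg

theorem beta_cell (hd : Data N P Q) (hN : 2 ≤ N) (k l : Fin N) :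
    beta P (Q k) (cell P (Q l)) = if k = l then (volume (cell P (Q k))).toReal else 0 := by
  rw [beta_apply hd hN k (isOpen_cell P (Q l)).measurableSet]
  split_ifs with h
  · rw [h, Set.inter_self]
  · have : cell P (Q k) ∩ cell P (Q l) = ∅ := by
      ext z
      simp only [Set.mem_inter_iff, Set.mem_empty_iff_false, iff_false]
      rintro ⟨h1, h2⟩
      exact h (disj hd h1 h2)
    rw [this]
    simp

theorem tri_eq (hd : Data N P Q) (hN : 2 ≤ N) {i j m : Fin 6}
    (hij : i ≠ j) (hjm : j ≠ m) (him : i ≠ m) :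
    tri (toC (P i)) (toC (P j)) (toC (P m)) =
      ∑ k : Fin N, (if ins (P i) (P j) (P m) (Q k) then (1:ℝ) else 0) • beta P (Q k) := by
  have hTm : MeasurableSet (convexHull ℝ {toC (P i), toC (P j), toC (P m)}) :=
    (tri_compact _ _ _).isClosed.measurableSet
  have hTi : Integrable ((convexHull ℝ {toC (P i), toC (P j), toC (P m)}).indicator
      fun _ => (1 : ℝ)) (volume : Measure ℂ) :=
    (integrable_indicator_iff hTm).2 (integrableOn_const (tri_compact _ _ _).measure_lt_top.ne)
  have hae : (convexHull ℝ {toC (P i), toC (P j), toC (P m)}).indicator (fun _ => (1 : ℝ))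
      =ᵐ[volume] fun z => ∑ k : Fin N, (if ins (P i) (P j) (P m) (Q k) then (1:ℝ) else 0) *
        ch P (Q k) z := by
    filter_upwards [ae_generic hd] with z hz
    by_cases hall : ∀ i, 0 < d (toC (P i)) (toC (P (i + 1))) z
    · obtain ⟨k, hk⟩ := hd.cov z hz hall
      have h1 : ∀ l, l ≠ k → ch P (Q l) z = 0 := by
        intro l hl
        unfold ch
        rw [Set.indicator_of_notMem]
        intro h
        exact hl (disj hd h hk)
      have h2 : ch P (Q k) z = 1 := by
        unfold ch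
        rw [Set.indicator_of_mem hk]
      rw [Finset.sum_eq_single k (fun l _ hl => by rw [h1 l hl, mul_zero])
        (fun h => absurd (Finset.mem_univ _) h), h2, mul_one]
      by_cases hins : ins (P i) (P j) (P m) (Q k)
      · rw [if_pos hins, Set.indicator_of_mem ((mem_tri_cell hd hk hij hjm him).2 hins)]
      · rw [if_neg hins, Set.indicator_of_notMem
          (fun h => hins ((mem_tri_cell hd hk hij hjm him).1 h))]
    · push Not at hall
      obtain ⟨a, ha⟩ := hall
      have ha' : d (toC (P a)) (toC (P (a + 1))) z < 0 :=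
        lt_of_le_of_ne ha (hz a (a + 1) ((by decide : ∀ a : Fin 6, a ≠ a + 1) a))
      have hT : z ∉ convexHull ℝ {toC (P i), toC (P j), toC (P m)} := by
        intro h
        have hconv : Convex ℝ {z | 0 ≤ d (toC (P a)) (toC (P (a + 1))) z} := by
          intro x hx y hy s t hs ht hst
          simp only [Set.mem_ofPred_eq] at hx hy ⊢
          have h1 : d (toC (P a)) (toC (P (a + 1))) (s • x + t • y) =
              s * (d (toC (P a)) (toC (P (a + 1))) x) +
              t * (d (toC (P a)) (toC (P (a + 1))) y) := by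
            have hs' : s = 1 - t := by linarith
            subst hs'
            simp only [d, Complex.add_re, Complex.add_im, Complex.real_smul, Complex.mul_re,
              Complex.mul_im, Complex.ofReal_re, Complex.ofReal_im, zero_mul, sub_zero, add_zero]
            ring
          rw [h1]
          positivity
        have h2 : z ∈ {z | 0 ≤ d (toC (P a)) (toC (P (a + 1))) z} := by
          refine convexHull_min ?_ hconv h
          rintro w (rfl | rfl | rfl)
          · show 0 ≤ d _ _ _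
            rw [d_toC]; exact_mod_cast hd.side a i
          · show 0 ≤ d _ _ _
            rw [d_toC]; exact_mod_cast hd.side a j
          · show 0 ≤ d _ _ _
            rw [d_toC]; exact_mod_cast hd.side a m
        exact absurd h2 (not_le.2 ha')
      rw [Set.indicator_of_notMem hT]
      symm
      apply Finset.sum_eq_zero
      intro k _
      by_cases hk : z ∈ cell P (Q k)
      · rw [if_neg (fun h => hT ((mem_tri_cell hd hk hij hjm him).2 h)), zero_mul]
      · unfold ch
        rw [Set.indicator_of_notMem hk, mul_zero]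
  unfold tri
  rw [WithDensityᵥEq.congr_ae hae]
  apply VectorMeasure.ext
  intro s hs
  rw [withDensityᵥ_apply (integrable_finsetSum _ (fun k _ => (ch_int hd hN k).const_mul _)) hs]
  rw [integral_finsetSum _ (fun k _ => ((ch_int hd hN k).const_mul _).integrableOn)]
  have hsum : ∀ (t : Finset (Fin N)) (c : Fin N → ℝ),
      (∑ k ∈ t, c k • beta P (Q k)) s = ∑ k ∈ t, c k * beta P (Q k) s := by
    intro t c
    induction t using Finset.induction_on with
    | empty => simp
    | insert a t ha ih =>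
      rw [Finset.sum_insert ha, Finset.sum_insert ha, ← ih]
      rfl
  rw [hsum]
  apply Finset.sum_congr rfl
  intro k _
  rw [integral_const_mul]
  congr 1
  unfold beta
  rw [withDensityᵥ_apply (ch_int hd hN k) hs]

/-- evaluation at a chamber -/
noncomputable def ev (s : Set ℂ) : SignedMeasure ℂ →ₗ[ℝ] ℝ where
  toFun := fun μ => μ s
  map_add' := fun _ _ => rfl
  map_smul' := fun _ _ => rfl

/-- the set of points -/
noncomputable def pts (P : Fin 6 → ℤ × ℤ) : Finset ℂ := Finset.univ.image fun i => toC (P i)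

theorem mem_pts {z : ℂ} : z ∈ pts P ↔ ∃ i, toC (P i) = z := by
  unfold pts
  simp

theorem chi_ne {i j m : Fin 6} (h : chi (toC (P i)) (toC (P j)) (toC (P m)) ≠ 0) :
    i ≠ j ∧ j ≠ m ∧ i ≠ m := by
  rw [chi_eq] at h
  refine ⟨?_, ?_, ?_⟩
  · rintro rfl; apply h; simp [d]
  · rintro rfl; apply h
    have : d (toC (P i)) (toC (P j)) (toC (P j)) = 0 := by unfold d; ring
    rw [this]; simp
  · rintro rfl; apply h
    have : d (toC (P i)) (toC (P j)) (toC (P i)) = 0 := by unfold d; ring
    rw [this]; simp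

theorem mem_MR (hd : Data N P Q) (hN : 2 ≤ N) {μ : SignedMeasure ℂ} (h : μ ∈ MR (pts P)) :
    ∃ c : Fin N → ℝ, ∑ k, c k • beta P (Q k) = μ := by
  rw [← Submodule.mem_span_range_iff_exists_fun]
  have h1 : MR (pts P) ≤ Submodule.span ℝ (Set.range fun k => beta P (Q k)) := by
    unfold MR
    rw [Submodule.span_le]
    rintro ν ⟨a, ha, b, hb, c, hc, hchi, rfl⟩
    obtain ⟨i, rfl⟩ := mem_pts.1 ha
    obtain ⟨j, rfl⟩ := mem_pts.1 hb
    obtain ⟨m, rfl⟩ := mem_pts.1 hc
    obtain ⟨hij, hjm, him⟩ := chi_ne hchi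
    rw [tri_eq hd hN hij hjm him]
    apply Submodule.sum_mem
    intro k _
    apply Submodule.smul_mem
    exact Submodule.subset_span ⟨k, rfl⟩
  exact h1 h

theorem ev_sum (hd : Data N P Q) (hN : 2 ≤ N) (c : Fin N → ℝ) (l : Fin N) :
    ev (cell P (Q l)) (∑ k, c k • beta P (Q k)) = c l * (volume (cell P (Q l))).toReal := by
  rw [map_sum, Finset.sum_eq_single l]
  · rw [map_smul, smul_eq_mul]
    show c l * (beta P (Q l)) (cell P (Q l)) = _
    rw [beta_cell hd hN, if_pos rfl]
  · intro k _ hk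
    rw [map_smul, smul_eq_mul]
    show c k * (beta P (Q k)) (cell P (Q l)) = _
    rw [beta_cell hd hN, if_neg hk, mul_zero]
  · intro h
    exact absurd (Finset.mem_univ _) h

theorem mem_Kpos (hd : Data N P Q) (hN : 2 ≤ N) (μ : SignedMeasure ℂ) :
    μ ∈ Kpos (pts P) ↔ μ ∈ MR (pts P) ∧ ∀ k : Fin N, 0 ≤ ev (cell P (Q k)) μ := by
  constructor
  · intro h
    exact ⟨h.1, fun k => h.2 _ (isOpen_cell P (Q k)).measurableSet⟩
  · rintro ⟨h1, h2⟩
    refine ⟨h1, ?_⟩
    obtain ⟨c, rfl⟩ := mem_MR hd hN h1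
    apply Finset.sum_nonneg
    intro k _
    have h3 := h2 k
    rw [ev_sum hd hN] at h3
    have h4 : 0 ≤ c k := nonneg_of_mul_nonneg_left h3 (vol_cell_pos hd hN k)
    intro s hs
    exact mul_nonneg h4 (beta_nonneg hd hN k s hs)

theorem tri_mem (hd : Data N P Q) (hN : 2 ≤ N) {i j m : Fin 6}
    (hij : i ≠ j) (hjm : j ≠ m) (him : i ≠ m) :
    tri (toC (P i)) (toC (P j)) (toC (P m)) ∈ Kpos (pts P) := by
  constructor
  · apply Submodule.subset_span
    refine ⟨_, mem_pts.2 ⟨i, rfl⟩, _, mem_pts.2 ⟨j, rfl⟩, _, mem_pts.2 ⟨m, rfl⟩, ?_, rfl⟩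
    rw [chi_toC]
    intro h
    exact hd.gen i j m hij hjm him (sign_eq_zero_iff.1 h)
  · rw [tri_eq hd hN hij hjm him]
    apply Finset.sum_nonneg
    intro k _ s hs
    refine mul_nonneg ?_ (beta_nonneg hd hN k s hs)
    split_ifs
    · exact zero_le_one
    · exact le_refl _

/-- **Counting theorem**: the number of facets of `K_pos` is the number of chambers. -/
theorem card_facets (hd : Data N P Q) (hN : 2 ≤ N) :
    Nat.card {x : FaceLattice (Kpos (pts P)) // Coat x} = N := by
  have h := card_coat (K := Kpos (pts P)) (M := MR (pts P)) (ι := Fin N)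
    (l := fun k => ev (cell P (Q k))) (mem_Kpos hd hN) ?_ ?_
  · rw [Fintype.card_fin] at h
    exact h
  · intro k l hkl
    obtain ⟨i, j, m, hij, hjm, him, h1, h2⟩ := hd.sep k l hkl
    refine ⟨tri (toC (P i)) (toC (P j)) (toC (P m)), tri_mem hd hN hij hjm him, ?_, ?_⟩
    · show ev (cell P (Q k)) _ = 0
      rw [tri_eq hd hN hij hjm him, ev_sum hd hN, if_neg h2, zero_mul]
    · show 0 < ev (cell P (Q l)) _
      rw [tri_eq hd hN hij hjm him, ev_sum hd hN, if_pos h1, one_mul]
      exact vol_cell_pos hd hN l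
  · intro k
    by_cases hk : k = ⟨0, by omega⟩
    · exact ⟨⟨1, by omega⟩, by rw [hk]; simp⟩
    · exact ⟨⟨0, by omega⟩, fun h => hk h.symm⟩

end Pool.Agent.Lib.MP_41af23_an
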