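import Mathlib
import Pool.Agent.Lib.MP_41af23_an.Count

set_option autoImplicit false
set_option linter.unusedVariables false

namespace Pool.Agent.Lib.MP_41af23_an

theorem cell_of_lt {P : Fin 6 → ℤ × ℤ} {q : ℤ × ℤ} {z : ℂ}
    (h : ∀ i j, i < j → 0 < (dz (P i) (P j) q : ℝ) * d (toC (P i)) (toC (P j)) z) :
    z ∈ cell P q := by
  intro i j hij
  rcases lt_or_gt_of_ne hij with h1 | h1
  · exact h i j h1
  · have h2 := h j i h1
    have h3 : dz (P i) (P j) q = - dz (P j) (P i) q := by unfold dz; ring
    rw [h3, d_swap]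
    push_cast
    linarith

theorem pp {c : ℤ} {t : ℝ} (hc : 0 < c) (ht : 0 < t) : 0 < (c : ℝ) * t :=
  mul_pos (by exact_mod_cast hc) ht

theorem nn {c : ℤ} {t : ℝ} (hc : c < 0) (ht : t < 0) : 0 < (c : ℝ) * t :=
  mul_pos_of_neg_of_neg (by exact_mod_cast hc) ht

theorem lt_of_ne_of_not_lt' {t : ℝ} (h : t ≠ 0) (h2 : t < 0 → False) : 0 < t := by
  rcases lt_or_gt_of_ne h with h3 | h3
  · exact absurd (h2 h3) id
  · exact h3

theorem lt_of_ne_of_not_gt' {t : ℝ} (h : t ≠ 0) (h2 : 0 < t → False) : t < 0 := by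
  rcases lt_or_gt_of_ne h with h3 | h3
  · exact h3
  · exact absurd (h2 h3) id

/-- the hexagon `S_0` -/
def P0 : Fin 6 → ℤ × ℤ := ![(6, 0), (6, 6), (0, 6), (-6, 0), (-6, -6), (0, -6)]

/-- sample points in the chambers -/
def Q0 : Fin 24 → ℤ × ℤ := ![(-5, -3), (-4, -3), (-4, -1), (-3, -5), (-3, -4), (-2, -1), (-3, 1), (-3, 2), (-1, -2), (-1, 1), (-1, -4), (-1, 3), (1, -3), (1, -1), (1, 2), (1, 4), (2, -3), (2, 1), (2, 5), (3, -1), (3, 4), (4, 1), (4, 3), (5, 2)]

theorem mk0 {x y : ℝ} (k : Fin 24)
    (h01 : 0 < (dz (P0 0) (P0 1) (Q0 k) : ℝ) * ((-6) * x + 0 * y + 36))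
    (h02 : 0 < (dz (P0 0) (P0 2) (Q0 k) : ℝ) * ((-6) * x + (-6) * y + 36))
    (h03 : 0 < (dz (P0 0) (P0 3) (Q0 k) : ℝ) * (0 * x + (-12) * y + 0))
    (h04 : 0 < (dz (P0 0) (P0 4) (Q0 k) : ℝ) * (6 * x + (-12) * y + (-36)))
    (h05 : 0 < (dz (P0 0) (P0 5) (Q0 k) : ℝ) * (6 * x + (-6) * y + (-36)))
    (h12 : 0 < (dz (P0 1) (P0 2) (Q0 k) : ℝ) * (0 * x + (-6) * y + 36))
    (h13 : 0 < (dz (P0 1) (P0 3) (Q0 k) : ℝ) * (6 * x + (-12) * y + 36))
    (h14 : 0 < (dz (P0 1) (P0 4) (Q0 k) : ℝ) * (12 * x + (-12) * y + 0))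
    (h15 : 0 < (dz (P0 1) (P0 5) (Q0 k) : ℝ) * (12 * x + (-6) * y + (-36)))
    (h23 : 0 < (dz (P0 2) (P0 3) (Q0 k) : ℝ) * (6 * x + (-6) * y + 36))
    (h24 : 0 < (dz (P0 2) (P0 4) (Q0 k) : ℝ) * (12 * x + (-6) * y + 36))
    (h25 : 0 < (dz (P0 2) (P0 5) (Q0 k) : ℝ) * (12 * x + 0 * y + 0))
    (h34 : 0 < (dz (P0 3) (P0 4) (Q0 k) : ℝ) * (6 * x + 0 * y + 36))
    (h35 : 0 < (dz (P0 3) (P0 5) (Q0 k) : ℝ) * (6 * x + 6 * y + 36))
    (h45 : 0 < (dz (P0 4) (P0 5) (Q0 k) : ℝ) * (0 * x + 6 * y + 36))
    : ∃ k, (⟨x, y⟩ : ℂ) ∈ cell P0 (Q0 k) := by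
  refine ⟨k, cell_of_lt ?_⟩
  intro i j hij
  have key : ∀ (i j : Fin 6) (A B C : ℝ), d (toC (P0 i)) (toC (P0 j)) ⟨x, y⟩ = A * x + B * y + C →
      0 < (dz (P0 i) (P0 j) (Q0 k) : ℝ) * (A * x + B * y + C) →
      0 < (dz (P0 i) (P0 j) (Q0 k) : ℝ) * d (toC (P0 i)) (toC (P0 j)) ⟨x, y⟩ := by
    intro i j A B C h1 h2; rw [h1]; exact h2
  fin_cases i <;> fin_cases j <;> first | (exfalso; revert hij; decide) | skip
  · exact key 0 1 (-6) (0) (36) (by simp [d, toC, P0]; ring) h01
  · exact key 0 2 (-6) (-6) (36) (by simp [d, toC, P0]; ring) h02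
  · exact key 0 3 (0) (-12) (0) (by simp [d, toC, P0]; ring) h03
  · exact key 0 4 (6) (-12) (-36) (by simp [d, toC, P0]; ring) h04
  · exact key 0 5 (6) (-6) (-36) (by simp [d, toC, P0]; ring) h05
  · exact key 1 2 (0) (-6) (36) (by simp [d, toC, P0]; ring) h12
  · exact key 1 3 (6) (-12) (36) (by simp [d, toC, P0]; ring) h13
  · exact key 1 4 (12) (-12) (0) (by simp [d, toC, P0]; ring) h14
  · exact key 1 5 (12) (-6) (-36) (by simp [d, toC, P0]; ring) h15
  · exact key 2 3 (6) (-6) (36) (by simp [d, toC, P0]; ring) h23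
  · exact key 2 4 (12) (-6) (36) (by simp [d, toC, P0]; ring) h24
  · exact key 2 5 (12) (0) (0) (by simp [d, toC, P0]; ring) h25
  · exact key 3 4 (6) (0) (36) (by simp [d, toC, P0]; ring) h34
  · exact key 3 5 (6) (6) (36) (by simp [d, toC, P0]; ring) h35
  · exact key 4 5 (0) (6) (36) (by simp [d, toC, P0]; ring) h45

theorem cov0 (x y : ℝ)
    (n02 : (-6) * x + (-6) * y + 36 ≠ 0)
    (n03 : 0 * x + (-12) * y + 0 ≠ 0)
    (n04 : 6 * x + (-12) * y + (-36) ≠ 0)
    (n13 : 6 * x + (-12) * y + 36 ≠ 0)
    (n14 : 12 * x + (-12) * y + 0 ≠ 0)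
    (n15 : 12 * x + (-6) * y + (-36) ≠ 0)
    (n24 : 12 * x + (-6) * y + 36 ≠ 0)
    (n25 : 12 * x + 0 * y + 0 ≠ 0)
    (n35 : 6 * x + 6 * y + 36 ≠ 0)
    (h01 : 0 < (-6) * x + 0 * y + 36)
    (h12 : 0 < 0 * x + (-6) * y + 36)
    (h23 : 0 < 6 * x + (-6) * y + 36)
    (h34 : 0 < 6 * x + 0 * y + 36)
    (h45 : 0 < 0 * x + 6 * y + 36)
    (h05 : 6 * x + (-6) * y + (-36) < 0)
    : ∃ k, (⟨x, y⟩ : ℂ) ∈ cell P0 (Q0 k) := by
  rcases lt_or_gt_of_ne n03 with h03 | h03
  · have h04 : 6 * x + (-12) * y + (-36) < 0 := lt_of_ne_of_not_gt' n04 (fun h => by linarith)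
    have h35 : 0 < 6 * x + 6 * y + 36 := lt_of_ne_of_not_lt' n35 (fun h => by linarith)
    rcases lt_or_gt_of_ne n02 with h02 | h02
    · have h24 : 0 < 12 * x + (-6) * y + 36 := lt_of_ne_of_not_lt' n24 (fun h => by linarith)
      have h25 : 0 < 12 * x + 0 * y + 0 := lt_of_ne_of_not_lt' n25 (fun h => by linarith)
      rcases lt_or_gt_of_ne n14 with h14 | h14
      · have h15 : 12 * x + (-6) * y + (-36) < 0 := lt_of_ne_of_not_gt' n15 (fun h => by linarith)
        rcases lt_or_gt_of_ne n13 with h13 | h13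
        · exact mk0 18 (pp (by decide) h01) (nn (by decide) h02) (nn (by decide) h03) (nn (by decide) h04) (nn (by decide) h05) (pp (by decide) h12) (nn (by decide) h13) (nn (by decide) h14) (nn (by decide) h15) (pp (by decide) h23) (pp (by decide) h24) (pp (by decide) h25) (pp (by decide) h34) (pp (by decide) h35) (pp (by decide) h45)
        · exact mk0 20 (pp (by decide) h01) (nn (by decide) h02) (nn (by decide) h03) (nn (by decide) h04) (nn (by decide) h05) (pp (by decide) h12) (pp (by decide) h13) (nn (by decide) h14) (nn (by decide) h15) (pp (by decide) h23) (pp (by decide) h24) (pp (by decide) h25) (pp (by decide) h34) (pp (by decide) h35) (pp (by decide) h45)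
      · have h13 : 0 < 6 * x + (-12) * y + 36 := lt_of_ne_of_not_lt' n13 (fun h => by linarith)
        rcases lt_or_gt_of_ne n15 with h15 | h15
        · exact mk0 22 (pp (by decide) h01) (nn (by decide) h02) (nn (by decide) h03) (nn (by decide) h04) (nn (by decide) h05) (pp (by decide) h12) (pp (by decide) h13) (pp (by decide) h14) (nn (by decide) h15) (pp (by decide) h23) (pp (by decide) h24) (pp (by decide) h25) (pp (by decide) h34) (pp (by decide) h35) (pp (by decide) h45)
        · exact mk0 23 (pp (by decide) h01) (nn (by decide) h02) (nn (by decide) h03) (nn (by decide) h04) (nn (by decide) h05) (pp (by decide) h12) (pp (by decide) h13) (pp (by decide) h14) (pp (by decide) h15) (pp (by decide) h23) (pp (by decide) h24) (pp (by decide) h25) (pp (by decide) h34) (pp (by decide) h35) (pp (by decide) h45)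
    · rcases lt_or_gt_of_ne n25 with h25 | h25
      · have h14 : 12 * x + (-12) * y + 0 < 0 := lt_of_ne_of_not_gt' n14 (fun h => by linarith)
        have h15 : 12 * x + (-6) * y + (-36) < 0 := lt_of_ne_of_not_gt' n15 (fun h => by linarith)
        rcases lt_or_gt_of_ne n13 with h13 | h13
        · rcases lt_or_gt_of_ne n24 with h24 | h24
          · exact mk0 7 (pp (by decide) h01) (pp (by decide) h02) (nn (by decide) h03) (nn (by decide) h04) (nn (by decide) h05) (pp (by decide) h12) (nn (by decide) h13) (nn (by decide) h14) (nn (by decide) h15) (pp (by decide) h23) (nn (by decide) h24) (nn (by decide) h25) (pp (by decide) h34) (pp (by decide) h35) (pp (by decide) h45)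
          · exact mk0 11 (pp (by decide) h01) (pp (by decide) h02) (nn (by decide) h03) (nn (by decide) h04) (nn (by decide) h05) (pp (by decide) h12) (nn (by decide) h13) (nn (by decide) h14) (nn (by decide) h15) (pp (by decide) h23) (pp (by decide) h24) (nn (by decide) h25) (pp (by decide) h34) (pp (by decide) h35) (pp (by decide) h45)
        · rcases lt_or_gt_of_ne n24 with h24 | h24
          · exact mk0 6 (pp (by decide) h01) (pp (by decide) h02) (nn (by decide) h03) (nn (by decide) h04) (nn (by decide) h05) (pp (by decide) h12) (pp (by decide) h13) (nn (by decide) h14) (nn (by decide) h15) (pp (by decide) h23) (nn (by decide) h24) (nn (by decide) h25) (pp (by decide) h34) (pp (by decide) h35) (pp (by decide) h45)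
          · exact mk0 9 (pp (by decide) h01) (pp (by decide) h02) (nn (by decide) h03) (nn (by decide) h04) (nn (by decide) h05) (pp (by decide) h12) (pp (by decide) h13) (nn (by decide) h14) (nn (by decide) h15) (pp (by decide) h23) (pp (by decide) h24) (nn (by decide) h25) (pp (by decide) h34) (pp (by decide) h35) (pp (by decide) h45)
      · have h24 : 0 < 12 * x + (-6) * y + 36 := lt_of_ne_of_not_lt' n24 (fun h => by linarith)
        rcases lt_or_gt_of_ne n14 with h14 | h14
        · have h15 : 12 * x + (-6) * y + (-36) < 0 := lt_of_ne_of_not_gt' n15 (fun h => by linarith)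
          rcases lt_or_gt_of_ne n13 with h13 | h13
          · exact mk0 15 (pp (by decide) h01) (pp (by decide) h02) (nn (by decide) h03) (nn (by decide) h04) (nn (by decide) h05) (pp (by decide) h12) (nn (by decide) h13) (nn (by decide) h14) (nn (by decide) h15) (pp (by decide) h23) (pp (by decide) h24) (pp (by decide) h25) (pp (by decide) h34) (pp (by decide) h35) (pp (by decide) h45)
          · exact mk0 14 (pp (by decide) h01) (pp (by decide) h02) (nn (by decide) h03) (nn (by decide) h04) (nn (by decide) h05) (pp (by decide) h12) (pp (by decide) h13) (nn (by decide) h14) (nn (by decide) h15) (pp (by decide) h23) (pp (by decide) h24) (pp (by decide) h25) (pp (by decide) h34) (pp (by decide) h35) (pp (by decide) h45)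
        · have h13 : 0 < 6 * x + (-12) * y + 36 := lt_of_ne_of_not_lt' n13 (fun h => by linarith)
          rcases lt_or_gt_of_ne n15 with h15 | h15
          · exact mk0 17 (pp (by decide) h01) (pp (by decide) h02) (nn (by decide) h03) (nn (by decide) h04) (nn (by decide) h05) (pp (by decide) h12) (pp (by decide) h13) (pp (by decide) h14) (nn (by decide) h15) (pp (by decide) h23) (pp (by decide) h24) (pp (by decide) h25) (pp (by decide) h34) (pp (by decide) h35) (pp (by decide) h45)
          · exact mk0 21 (pp (by decide) h01) (pp (by decide) h02) (nn (by decide) h03) (nn (by decide) h04) (nn (by decide) h05) (pp (by decide) h12) (pp (by decide) h13) (pp (by decide) h14) (pp (by decide) h15) (pp (by decide) h23) (pp (by decide) h24) (pp (by decide) h25) (pp (by decide) h34) (pp (by decide) h35) (pp (by decide) h45)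
  · have h02 : 0 < (-6) * x + (-6) * y + 36 := lt_of_ne_of_not_lt' n02 (fun h => by linarith)
    have h13 : 0 < 6 * x + (-12) * y + 36 := lt_of_ne_of_not_lt' n13 (fun h => by linarith)
    rcases lt_or_gt_of_ne n04 with h04 | h04
    · rcases lt_or_gt_of_ne n14 with h14 | h14
      · have h15 : 12 * x + (-6) * y + (-36) < 0 := lt_of_ne_of_not_gt' n15 (fun h => by linarith)
        have h25 : 12 * x + 0 * y + 0 < 0 := lt_of_ne_of_not_gt' n25 (fun h => by linarith)
        rcases lt_or_gt_of_ne n24 with h24 | h24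
        · rcases lt_or_gt_of_ne n35 with h35 | h35
          · exact mk0 0 (pp (by decide) h01) (pp (by decide) h02) (pp (by decide) h03) (nn (by decide) h04) (nn (by decide) h05) (pp (by decide) h12) (pp (by decide) h13) (nn (by decide) h14) (nn (by decide) h15) (pp (by decide) h23) (nn (by decide) h24) (nn (by decide) h25) (pp (by decide) h34) (nn (by decide) h35) (pp (by decide) h45)
          · exact mk0 2 (pp (by decide) h01) (pp (by decide) h02) (pp (by decide) h03) (nn (by decide) h04) (nn (by decide) h05) (pp (by decide) h12) (pp (by decide) h13) (nn (by decide) h14) (nn (by decide) h15) (pp (by decide) h23) (nn (by decide) h24) (nn (by decide) h25) (pp (by decide) h34) (pp (by decide) h35) (pp (by decide) h45)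
        · rcases lt_or_gt_of_ne n35 with h35 | h35
          · exact mk0 1 (pp (by decide) h01) (pp (by decide) h02) (pp (by decide) h03) (nn (by decide) h04) (nn (by decide) h05) (pp (by decide) h12) (pp (by decide) h13) (nn (by decide) h14) (nn (by decide) h15) (pp (by decide) h23) (pp (by decide) h24) (nn (by decide) h25) (pp (by decide) h34) (nn (by decide) h35) (pp (by decide) h45)
          · exact mk0 5 (pp (by decide) h01) (pp (by decide) h02) (pp (by decide) h03) (nn (by decide) h04) (nn (by decide) h05) (pp (by decide) h12) (pp (by decide) h13) (nn (by decide) h14) (nn (by decide) h15) (pp (by decide) h23) (pp (by decide) h24) (nn (by decide) h25) (pp (by decide) h34) (pp (by decide) h35) (pp (by decide) h45)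
      · have h24 : 0 < 12 * x + (-6) * y + 36 := lt_of_ne_of_not_lt' n24 (fun h => by linarith)
        rcases lt_or_gt_of_ne n25 with h25 | h25
        · have h15 : 12 * x + (-6) * y + (-36) < 0 := lt_of_ne_of_not_gt' n15 (fun h => by linarith)
          rcases lt_or_gt_of_ne n35 with h35 | h35
          · exact mk0 4 (pp (by decide) h01) (pp (by decide) h02) (pp (by decide) h03) (nn (by decide) h04) (nn (by decide) h05) (pp (by decide) h12) (pp (by decide) h13) (pp (by decide) h14) (nn (by decide) h15) (pp (by decide) h23) (pp (by decide) h24) (nn (by decide) h25) (pp (by decide) h34) (nn (by decide) h35) (pp (by decide) h45)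
          · exact mk0 8 (pp (by decide) h01) (pp (by decide) h02) (pp (by decide) h03) (nn (by decide) h04) (nn (by decide) h05) (pp (by decide) h12) (pp (by decide) h13) (pp (by decide) h14) (nn (by decide) h15) (pp (by decide) h23) (pp (by decide) h24) (nn (by decide) h25) (pp (by decide) h34) (pp (by decide) h35) (pp (by decide) h45)
        · have h35 : 0 < 6 * x + 6 * y + 36 := lt_of_ne_of_not_lt' n35 (fun h => by linarith)
          rcases lt_or_gt_of_ne n15 with h15 | h15
          · exact mk0 13 (pp (by decide) h01) (pp (by decide) h02) (pp (by decide) h03) (nn (by decide) h04) (nn (by decide) h05) (pp (by decide) h12) (pp (by decide) h13) (pp (by decide) h14) (nn (by decide) h15) (pp (by decide) h23) (pp (by decide) h24) (pp (by decide) h25) (pp (by decide) h34) (pp (by decide) h35) (pp (by decide) h45)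
          · exact mk0 19 (pp (by decide) h01) (pp (by decide) h02) (pp (by decide) h03) (nn (by decide) h04) (nn (by decide) h05) (pp (by decide) h12) (pp (by decide) h13) (pp (by decide) h14) (pp (by decide) h15) (pp (by decide) h23) (pp (by decide) h24) (pp (by decide) h25) (pp (by decide) h34) (pp (by decide) h35) (pp (by decide) h45)
    · have h14 : 0 < 12 * x + (-12) * y + 0 := lt_of_ne_of_not_lt' n14 (fun h => by linarith)
      have h24 : 0 < 12 * x + (-6) * y + 36 := lt_of_ne_of_not_lt' n24 (fun h => by linarith)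
      rcases lt_or_gt_of_ne n25 with h25 | h25
      · have h15 : 12 * x + (-6) * y + (-36) < 0 := lt_of_ne_of_not_gt' n15 (fun h => by linarith)
        rcases lt_or_gt_of_ne n35 with h35 | h35
        · exact mk0 3 (pp (by decide) h01) (pp (by decide) h02) (pp (by decide) h03) (pp (by decide) h04) (nn (by decide) h05) (pp (by decide) h12) (pp (by decide) h13) (pp (by decide) h14) (nn (by decide) h15) (pp (by decide) h23) (pp (by decide) h24) (nn (by decide) h25) (pp (by decide) h34) (nn (by decide) h35) (pp (by decide) h45)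
        · exact mk0 10 (pp (by decide) h01) (pp (by decide) h02) (pp (by decide) h03) (pp (by decide) h04) (nn (by decide) h05) (pp (by decide) h12) (pp (by decide) h13) (pp (by decide) h14) (nn (by decide) h15) (pp (by decide) h23) (pp (by decide) h24) (nn (by decide) h25) (pp (by decide) h34) (pp (by decide) h35) (pp (by decide) h45)
      · have h35 : 0 < 6 * x + 6 * y + 36 := lt_of_ne_of_not_lt' n35 (fun h => by linarith)
        rcases lt_or_gt_of_ne n15 with h15 | h15
        · exact mk0 12 (pp (by decide) h01) (pp (by decide) h02) (pp (by decide) h03) (pp (by decide) h04) (nn (by decide) h05) (pp (by decide) h12) (pp (by decide) h13) (pp (by decide) h14) (nn (by decide) h15) (pp (by decide) h23) (pp (by decide) h24) (pp (by decide) h25) (pp (by decide) h34) (pp (by decide) h35) (pp (by decide) h45)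
        · exact mk0 16 (pp (by decide) h01) (pp (by decide) h02) (pp (by decide) h03) (pp (by decide) h04) (nn (by decide) h05) (pp (by decide) h12) (pp (by decide) h13) (pp (by decide) h14) (pp (by decide) h15) (pp (by decide) h23) (pp (by decide) h24) (pp (by decide) h25) (pp (by decide) h34) (pp (by decide) h35) (pp (by decide) h45)

theorem data0 : Data 24 P0 Q0 where
  gen := by decide +kernel
  side := by decide +kernel
  gen' := by decide +kernel
  sep := by decide +kernel
  cov := by
    rintro ⟨x, y⟩ hne hs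
    refine cov0 x y ?_ ?_ ?_ ?_ ?_ ?_ ?_ ?_ ?_ ?_ ?_ ?_ ?_ ?_ ?_
    · have h := hne 0 2 (by decide)
      have e : d (toC (P0 0)) (toC (P0 2)) ⟨x, y⟩ = (-6) * x + (-6) * y + 36 := by simp [d, toC, P0]; ring
      rwa [e] at h
    · have h := hne 0 3 (by decide)
      have e : d (toC (P0 0)) (toC (P0 3)) ⟨x, y⟩ = 0 * x + (-12) * y + 0 := by simp [d, toC, P0]; ring
      rwa [e] at h
    · have h := hne 0 4 (by decide)
      have e : d (toC (P0 0)) (toC (P0 4)) ⟨x, y⟩ = 6 * x + (-12) * y + (-36) := by simp [d, toC, P0]; ring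
      rwa [e] at h
    · have h := hne 1 3 (by decide)
      have e : d (toC (P0 1)) (toC (P0 3)) ⟨x, y⟩ = 6 * x + (-12) * y + 36 := by simp [d, toC, P0]; ring
      rwa [e] at h
    · have h := hne 1 4 (by decide)
      have e : d (toC (P0 1)) (toC (P0 4)) ⟨x, y⟩ = 12 * x + (-12) * y + 0 := by simp [d, toC, P0]; ring
      rwa [e] at h
    · have h := hne 1 5 (by decide)
      have e : d (toC (P0 1)) (toC (P0 5)) ⟨x, y⟩ = 12 * x + (-6) * y + (-36) := by simp [d, toC, P0]; ring
      rwa [e] at h
    · have h := hne 2 4 (by decide)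
      have e : d (toC (P0 2)) (toC (P0 4)) ⟨x, y⟩ = 12 * x + (-6) * y + 36 := by simp [d, toC, P0]; ring
      rwa [e] at h
    · have h := hne 2 5 (by decide)
      have e : d (toC (P0 2)) (toC (P0 5)) ⟨x, y⟩ = 12 * x + 0 * y + 0 := by simp [d, toC, P0]; ring
      rwa [e] at h
    · have h := hne 3 5 (by decide)
      have e : d (toC (P0 3)) (toC (P0 5)) ⟨x, y⟩ = 6 * x + 6 * y + 36 := by simp [d, toC, P0]; ring
      rwa [e] at h
    · have h := hs 0
      have e : d (toC (P0 0)) (toC (P0 (0 + 1))) ⟨x, y⟩ = (-6) * x + 0 * y + 36 := by simp [d, toC, P0]; ring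
      rwa [e] at h
    · have h := hs 1
      have e : d (toC (P0 1)) (toC (P0 (1 + 1))) ⟨x, y⟩ = 0 * x + (-6) * y + 36 := by simp [d, toC, P0]; ring
      rwa [e] at h
    · have h := hs 2
      have e : d (toC (P0 2)) (toC (P0 (2 + 1))) ⟨x, y⟩ = 6 * x + (-6) * y + 36 := by simp [d, toC, P0]; ring
      rwa [e] at h
    · have h := hs 3
      have e : d (toC (P0 3)) (toC (P0 (3 + 1))) ⟨x, y⟩ = 6 * x + 0 * y + 36 := by simp [d, toC, P0]; ring
      rwa [e] at h
    · have h := hs 4
      have e : d (toC (P0 4)) (toC (P0 (4 + 1))) ⟨x, y⟩ = 0 * x + 6 * y + 36 := by simp [d, toC, P0]; ring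
      rwa [e] at h
    · have h := hs 5
      have e : d (toC (P0 5)) (toC (P0 (5 + 1))) ⟨x, y⟩ = -(6 * x + (-6) * y + (-36)) := by
        rw [show (5 : Fin 6) + 1 = 0 from rfl]; simp [d, toC, P0]; ring
      rw [e] at h; linarith

end Pool.Agent.Lib.MP_41af23_an
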