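import Mathlib
import Pool.Agent.Lib.MP_41af23_an.Hex0

set_option autoImplicit false
set_option linter.unusedVariables false

namespace Pool.Agent.Lib.MP_41af23_an

/-- the hexagon `S_1` -/
def P1 : Fin 6 → ℤ × ℤ := ![(12, 0), (12, 18), (0, 12), (-12, 0), (-12, -12), (0, -12)]

/-- sample points in the chambers -/
def Q1 : Fin 25 → ℤ × ℤ := ![(-7, -8), (-10, -6), (-8, -6), (-9, -1), (-7, 2), (-6, -10), (-6, -3), (-6, 5), (-3, -4), (-3, 2), (-2, -8), (-1, 1), (-1, 9), (3, -7), (1, -7), (2, -3), (3, 3), (2, 7), (1, 10), (3, 12), (5, 11), (5, -2), (7, 9), (7, 2), (9, 7)]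

theorem mk1 {x y : ℝ} (k : Fin 25)
    (h01 : 0 < (dz (P1 0) (P1 1) (Q1 k) : ℝ) * ((-18) * x + 0 * y + 216))
    (h02 : 0 < (dz (P1 0) (P1 2) (Q1 k) : ℝ) * ((-12) * x + (-12) * y + 144))
    (h03 : 0 < (dz (P1 0) (P1 3) (Q1 k) : ℝ) * (0 * x + (-24) * y + 0))
    (h04 : 0 < (dz (P1 0) (P1 4) (Q1 k) : ℝ) * (12 * x + (-24) * y + (-144)))
    (h05 : 0 < (dz (P1 0) (P1 5) (Q1 k) : ℝ) * (12 * x + (-12) * y + (-144)))
    (h12 : 0 < (dz (P1 1) (P1 2) (Q1 k) : ℝ) * (6 * x + (-12) * y + 144))
    (h13 : 0 < (dz (P1 1) (P1 3) (Q1 k) : ℝ) * (18 * x + (-24) * y + 216))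
    (h14 : 0 < (dz (P1 1) (P1 4) (Q1 k) : ℝ) * (30 * x + (-24) * y + 72))
    (h15 : 0 < (dz (P1 1) (P1 5) (Q1 k) : ℝ) * (30 * x + (-12) * y + (-144)))
    (h23 : 0 < (dz (P1 2) (P1 3) (Q1 k) : ℝ) * (12 * x + (-12) * y + 144))
    (h24 : 0 < (dz (P1 2) (P1 4) (Q1 k) : ℝ) * (24 * x + (-12) * y + 144))
    (h25 : 0 < (dz (P1 2) (P1 5) (Q1 k) : ℝ) * (24 * x + 0 * y + 0))
    (h34 : 0 < (dz (P1 3) (P1 4) (Q1 k) : ℝ) * (12 * x + 0 * y + 144))
    (h35 : 0 < (dz (P1 3) (P1 5) (Q1 k) : ℝ) * (12 * x + 12 * y + 144))
    (h45 : 0 < (dz (P1 4) (P1 5) (Q1 k) : ℝ) * (0 * x + 12 * y + 144))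
    : ∃ k, (⟨x, y⟩ : ℂ) ∈ cell P1 (Q1 k) := by
  refine ⟨k, cell_of_lt ?_⟩
  intro i j hij
  have key : ∀ (i j : Fin 6) (A B C : ℝ), d (toC (P1 i)) (toC (P1 j)) ⟨x, y⟩ = A * x + B * y + C →
      0 < (dz (P1 i) (P1 j) (Q1 k) : ℝ) * (A * x + B * y + C) →
      0 < (dz (P1 i) (P1 j) (Q1 k) : ℝ) * d (toC (P1 i)) (toC (P1 j)) ⟨x, y⟩ := by
    intro i j A B C h1 h2; rw [h1]; exact h2
  fin_cases i <;> fin_cases j <;> first | (exfalso; revert hij; decide) | skip
  · exact key 0 1 (-18) (0) (216) (by simp [d, toC, P1]; ring) h01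
  · exact key 0 2 (-12) (-12) (144) (by simp [d, toC, P1]; ring) h02
  · exact key 0 3 (0) (-24) (0) (by simp [d, toC, P1]; ring) h03
  · exact key 0 4 (12) (-24) (-144) (by simp [d, toC, P1]; ring) h04
  · exact key 0 5 (12) (-12) (-144) (by simp [d, toC, P1]; ring) h05
  · exact key 1 2 (6) (-12) (144) (by simp [d, toC, P1]; ring) h12
  · exact key 1 3 (18) (-24) (216) (by simp [d, toC, P1]; ring) h13
  · exact key 1 4 (30) (-24) (72) (by simp [d, toC, P1]; ring) h14
  · exact key 1 5 (30) (-12) (-144) (by simp [d, toC, P1]; ring) h15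
  · exact key 2 3 (12) (-12) (144) (by simp [d, toC, P1]; ring) h23
  · exact key 2 4 (24) (-12) (144) (by simp [d, toC, P1]; ring) h24
  · exact key 2 5 (24) (0) (0) (by simp [d, toC, P1]; ring) h25
  · exact key 3 4 (12) (0) (144) (by simp [d, toC, P1]; ring) h34
  · exact key 3 5 (12) (12) (144) (by simp [d, toC, P1]; ring) h35
  · exact key 4 5 (0) (12) (144) (by simp [d, toC, P1]; ring) h45

theorem cov1 (x y : ℝ)
    (n02 : (-12) * x + (-12) * y + 144 ≠ 0)
    (n03 : 0 * x + (-24) * y + 0 ≠ 0)
    (n04 : 12 * x + (-24) * y + (-144) ≠ 0)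
    (n13 : 18 * x + (-24) * y + 216 ≠ 0)
    (n14 : 30 * x + (-24) * y + 72 ≠ 0)
    (n15 : 30 * x + (-12) * y + (-144) ≠ 0)
    (n24 : 24 * x + (-12) * y + 144 ≠ 0)
    (n25 : 24 * x + 0 * y + 0 ≠ 0)
    (n35 : 12 * x + 12 * y + 144 ≠ 0)
    (h01 : 0 < (-18) * x + 0 * y + 216)
    (h12 : 0 < 6 * x + (-12) * y + 144)
    (h23 : 0 < 12 * x + (-12) * y + 144)
    (h34 : 0 < 12 * x + 0 * y + 144)
    (h45 : 0 < 0 * x + 12 * y + 144)
    (h05 : 12 * x + (-12) * y + (-144) < 0)
    : ∃ k, (⟨x, y⟩ : ℂ) ∈ cell P1 (Q1 k) := by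
  rcases lt_or_gt_of_ne n03 with h03 | h03
  · have h04 : 12 * x + (-24) * y + (-144) < 0 := lt_of_ne_of_not_gt' n04 (fun h => by linarith)
    have h35 : 0 < 12 * x + 12 * y + 144 := lt_of_ne_of_not_lt' n35 (fun h => by linarith)
    rcases lt_or_gt_of_ne n14 with h14 | h14
    · have h15 : 30 * x + (-12) * y + (-144) < 0 := lt_of_ne_of_not_gt' n15 (fun h => by linarith)
      rcases lt_or_gt_of_ne n13 with h13 | h13
      · rcases lt_or_gt_of_ne n25 with h25 | h25
        · have h02 : 0 < (-12) * x + (-12) * y + 144 := lt_of_ne_of_not_lt' n02 (fun h => by linarith)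
          rcases lt_or_gt_of_ne n24 with h24 | h24
          · exact mk1 7 (pp (by decide) h01) (pp (by decide) h02) (nn (by decide) h03) (nn (by decide) h04) (nn (by decide) h05) (pp (by decide) h12) (nn (by decide) h13) (nn (by decide) h14) (nn (by decide) h15) (pp (by decide) h23) (nn (by decide) h24) (nn (by decide) h25) (pp (by decide) h34) (pp (by decide) h35) (pp (by decide) h45)
          · exact mk1 12 (pp (by decide) h01) (pp (by decide) h02) (nn (by decide) h03) (nn (by decide) h04) (nn (by decide) h05) (pp (by decide) h12) (nn (by decide) h13) (nn (by decide) h14) (nn (by decide) h15) (pp (by decide) h23) (pp (by decide) h24) (nn (by decide) h25) (pp (by decide) h34) (pp (by decide) h35) (pp (by decide) h45)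
        · have h24 : 0 < 24 * x + (-12) * y + 144 := lt_of_ne_of_not_lt' n24 (fun h => by linarith)
          rcases lt_or_gt_of_ne n02 with h02 | h02
          · exact mk1 19 (pp (by decide) h01) (nn (by decide) h02) (nn (by decide) h03) (nn (by decide) h04) (nn (by decide) h05) (pp (by decide) h12) (nn (by decide) h13) (nn (by decide) h14) (nn (by decide) h15) (pp (by decide) h23) (pp (by decide) h24) (pp (by decide) h25) (pp (by decide) h34) (pp (by decide) h35) (pp (by decide) h45)
          · exact mk1 18 (pp (by decide) h01) (pp (by decide) h02) (nn (by decide) h03) (nn (by decide) h04) (nn (by decide) h05) (pp (by decide) h12) (nn (by decide) h13) (nn (by decide) h14) (nn (by decide) h15) (pp (by decide) h23) (pp (by decide) h24) (pp (by decide) h25) (pp (by decide) h34) (pp (by decide) h35) (pp (by decide) h45)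
      · rcases lt_or_gt_of_ne n25 with h25 | h25
        · have h02 : 0 < (-12) * x + (-12) * y + 144 := lt_of_ne_of_not_lt' n02 (fun h => by linarith)
          rcases lt_or_gt_of_ne n24 with h24 | h24
          · exact mk1 4 (pp (by decide) h01) (pp (by decide) h02) (nn (by decide) h03) (nn (by decide) h04) (nn (by decide) h05) (pp (by decide) h12) (pp (by decide) h13) (nn (by decide) h14) (nn (by decide) h15) (pp (by decide) h23) (nn (by decide) h24) (nn (by decide) h25) (pp (by decide) h34) (pp (by decide) h35) (pp (by decide) h45)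
          · exact mk1 9 (pp (by decide) h01) (pp (by decide) h02) (nn (by decide) h03) (nn (by decide) h04) (nn (by decide) h05) (pp (by decide) h12) (pp (by decide) h13) (nn (by decide) h14) (nn (by decide) h15) (pp (by decide) h23) (pp (by decide) h24) (nn (by decide) h25) (pp (by decide) h34) (pp (by decide) h35) (pp (by decide) h45)
        · have h24 : 0 < 24 * x + (-12) * y + 144 := lt_of_ne_of_not_lt' n24 (fun h => by linarith)
          rcases lt_or_gt_of_ne n02 with h02 | h02
          · exact mk1 20 (pp (by decide) h01) (nn (by decide) h02) (nn (by decide) h03) (nn (by decide) h04) (nn (by decide) h05) (pp (by decide) h12) (pp (by decide) h13) (nn (by decide) h14) (nn (by decide) h15) (pp (by decide) h23) (pp (by decide) h24) (pp (by decide) h25) (pp (by decide) h34) (pp (by decide) h35) (pp (by decide) h45)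
          · exact mk1 17 (pp (by decide) h01) (pp (by decide) h02) (nn (by decide) h03) (nn (by decide) h04) (nn (by decide) h05) (pp (by decide) h12) (pp (by decide) h13) (nn (by decide) h14) (nn (by decide) h15) (pp (by decide) h23) (pp (by decide) h24) (pp (by decide) h25) (pp (by decide) h34) (pp (by decide) h35) (pp (by decide) h45)
    · have h13 : 0 < 18 * x + (-24) * y + 216 := lt_of_ne_of_not_lt' n13 (fun h => by linarith)
      have h24 : 0 < 24 * x + (-12) * y + 144 := lt_of_ne_of_not_lt' n24 (fun h => by linarith)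
      rcases lt_or_gt_of_ne n02 with h02 | h02
      · have h25 : 0 < 24 * x + 0 * y + 0 := lt_of_ne_of_not_lt' n25 (fun h => by linarith)
        rcases lt_or_gt_of_ne n15 with h15 | h15
        · exact mk1 22 (pp (by decide) h01) (nn (by decide) h02) (nn (by decide) h03) (nn (by decide) h04) (nn (by decide) h05) (pp (by decide) h12) (pp (by decide) h13) (pp (by decide) h14) (nn (by decide) h15) (pp (by decide) h23) (pp (by decide) h24) (pp (by decide) h25) (pp (by decide) h34) (pp (by decide) h35) (pp (by decide) h45)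
        · exact mk1 24 (pp (by decide) h01) (nn (by decide) h02) (nn (by decide) h03) (nn (by decide) h04) (nn (by decide) h05) (pp (by decide) h12) (pp (by decide) h13) (pp (by decide) h14) (pp (by decide) h15) (pp (by decide) h23) (pp (by decide) h24) (pp (by decide) h25) (pp (by decide) h34) (pp (by decide) h35) (pp (by decide) h45)
      · rcases lt_or_gt_of_ne n15 with h15 | h15
        · rcases lt_or_gt_of_ne n25 with h25 | h25
          · exact mk1 11 (pp (by decide) h01) (pp (by decide) h02) (nn (by decide) h03) (nn (by decide) h04) (nn (by decide) h05) (pp (by decide) h12) (pp (by decide) h13) (pp (by decide) h14) (nn (by decide) h15) (pp (by decide) h23) (pp (by decide) h24) (nn (by decide) h25) (pp (by decide) h34) (pp (by decide) h35) (pp (by decide) h45)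
          · exact mk1 16 (pp (by decide) h01) (pp (by decide) h02) (nn (by decide) h03) (nn (by decide) h04) (nn (by decide) h05) (pp (by decide) h12) (pp (by decide) h13) (pp (by decide) h14) (nn (by decide) h15) (pp (by decide) h23) (pp (by decide) h24) (pp (by decide) h25) (pp (by decide) h34) (pp (by decide) h35) (pp (by decide) h45)
        · have h25 : 0 < 24 * x + 0 * y + 0 := lt_of_ne_of_not_lt' n25 (fun h => by linarith)
          exact mk1 23 (pp (by decide) h01) (pp (by decide) h02) (nn (by decide) h03) (nn (by decide) h04) (nn (by decide) h05) (pp (by decide) h12) (pp (by decide) h13) (pp (by decide) h14) (pp (by decide) h15) (pp (by decide) h23) (pp (by decide) h24) (pp (by decide) h25) (pp (by decide) h34) (pp (by decide) h35) (pp (by decide) h45)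
  · have h02 : 0 < (-12) * x + (-12) * y + 144 := lt_of_ne_of_not_lt' n02 (fun h => by linarith)
    have h13 : 0 < 18 * x + (-24) * y + 216 := lt_of_ne_of_not_lt' n13 (fun h => by linarith)
    rcases lt_or_gt_of_ne n04 with h04 | h04
    · rcases lt_or_gt_of_ne n14 with h14 | h14
      · have h15 : 30 * x + (-12) * y + (-144) < 0 := lt_of_ne_of_not_gt' n15 (fun h => by linarith)
        have h25 : 24 * x + 0 * y + 0 < 0 := lt_of_ne_of_not_gt' n25 (fun h => by linarith)
        rcases lt_or_gt_of_ne n24 with h24 | h24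
        · rcases lt_or_gt_of_ne n35 with h35 | h35
          · exact mk1 1 (pp (by decide) h01) (pp (by decide) h02) (pp (by decide) h03) (nn (by decide) h04) (nn (by decide) h05) (pp (by decide) h12) (pp (by decide) h13) (nn (by decide) h14) (nn (by decide) h15) (pp (by decide) h23) (nn (by decide) h24) (nn (by decide) h25) (pp (by decide) h34) (nn (by decide) h35) (pp (by decide) h45)
          · exact mk1 3 (pp (by decide) h01) (pp (by decide) h02) (pp (by decide) h03) (nn (by decide) h04) (nn (by decide) h05) (pp (by decide) h12) (pp (by decide) h13) (nn (by decide) h14) (nn (by decide) h15) (pp (by decide) h23) (nn (by decide) h24) (nn (by decide) h25) (pp (by decide) h34) (pp (by decide) h35) (pp (by decide) h45)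
        · rcases lt_or_gt_of_ne n35 with h35 | h35
          · exact mk1 2 (pp (by decide) h01) (pp (by decide) h02) (pp (by decide) h03) (nn (by decide) h04) (nn (by decide) h05) (pp (by decide) h12) (pp (by decide) h13) (nn (by decide) h14) (nn (by decide) h15) (pp (by decide) h23) (pp (by decide) h24) (nn (by decide) h25) (pp (by decide) h34) (nn (by decide) h35) (pp (by decide) h45)
          · exact mk1 6 (pp (by decide) h01) (pp (by decide) h02) (pp (by decide) h03) (nn (by decide) h04) (nn (by decide) h05) (pp (by decide) h12) (pp (by decide) h13) (nn (by decide) h14) (nn (by decide) h15) (pp (by decide) h23) (pp (by decide) h24) (nn (by decide) h25) (pp (by decide) h34) (pp (by decide) h35) (pp (by decide) h45)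
      · have h24 : 0 < 24 * x + (-12) * y + 144 := lt_of_ne_of_not_lt' n24 (fun h => by linarith)
        rcases lt_or_gt_of_ne n25 with h25 | h25
        · have h15 : 30 * x + (-12) * y + (-144) < 0 := lt_of_ne_of_not_gt' n15 (fun h => by linarith)
          rcases lt_or_gt_of_ne n35 with h35 | h35
          · exact mk1 0 (pp (by decide) h01) (pp (by decide) h02) (pp (by decide) h03) (nn (by decide) h04) (nn (by decide) h05) (pp (by decide) h12) (pp (by decide) h13) (pp (by decide) h14) (nn (by decide) h15) (pp (by decide) h23) (pp (by decide) h24) (nn (by decide) h25) (pp (by decide) h34) (nn (by decide) h35) (pp (by decide) h45)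
          · exact mk1 8 (pp (by decide) h01) (pp (by decide) h02) (pp (by decide) h03) (nn (by decide) h04) (nn (by decide) h05) (pp (by decide) h12) (pp (by decide) h13) (pp (by decide) h14) (nn (by decide) h15) (pp (by decide) h23) (pp (by decide) h24) (nn (by decide) h25) (pp (by decide) h34) (pp (by decide) h35) (pp (by decide) h45)
        · have h35 : 0 < 12 * x + 12 * y + 144 := lt_of_ne_of_not_lt' n35 (fun h => by linarith)
          rcases lt_or_gt_of_ne n15 with h15 | h15
          · exact mk1 15 (pp (by decide) h01) (pp (by decide) h02) (pp (by decide) h03) (nn (by decide) h04) (nn (by decide) h05) (pp (by decide) h12) (pp (by decide) h13) (pp (by decide) h14) (nn (by decide) h15) (pp (by decide) h23) (pp (by decide) h24) (pp (by decide) h25) (pp (by decide) h34) (pp (by decide) h35) (pp (by decide) h45)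
          · exact mk1 21 (pp (by decide) h01) (pp (by decide) h02) (pp (by decide) h03) (nn (by decide) h04) (nn (by decide) h05) (pp (by decide) h12) (pp (by decide) h13) (pp (by decide) h14) (pp (by decide) h15) (pp (by decide) h23) (pp (by decide) h24) (pp (by decide) h25) (pp (by decide) h34) (pp (by decide) h35) (pp (by decide) h45)
    · have h14 : 0 < 30 * x + (-24) * y + 72 := lt_of_ne_of_not_lt' n14 (fun h => by linarith)
      have h24 : 0 < 24 * x + (-12) * y + 144 := lt_of_ne_of_not_lt' n24 (fun h => by linarith)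
      rcases lt_or_gt_of_ne n25 with h25 | h25
      · have h15 : 30 * x + (-12) * y + (-144) < 0 := lt_of_ne_of_not_gt' n15 (fun h => by linarith)
        rcases lt_or_gt_of_ne n35 with h35 | h35
        · exact mk1 5 (pp (by decide) h01) (pp (by decide) h02) (pp (by decide) h03) (pp (by decide) h04) (nn (by decide) h05) (pp (by decide) h12) (pp (by decide) h13) (pp (by decide) h14) (nn (by decide) h15) (pp (by decide) h23) (pp (by decide) h24) (nn (by decide) h25) (pp (by decide) h34) (nn (by decide) h35) (pp (by decide) h45)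
        · exact mk1 10 (pp (by decide) h01) (pp (by decide) h02) (pp (by decide) h03) (pp (by decide) h04) (nn (by decide) h05) (pp (by decide) h12) (pp (by decide) h13) (pp (by decide) h14) (nn (by decide) h15) (pp (by decide) h23) (pp (by decide) h24) (nn (by decide) h25) (pp (by decide) h34) (pp (by decide) h35) (pp (by decide) h45)
      · have h35 : 0 < 12 * x + 12 * y + 144 := lt_of_ne_of_not_lt' n35 (fun h => by linarith)
        rcases lt_or_gt_of_ne n15 with h15 | h15
        · exact mk1 14 (pp (by decide) h01) (pp (by decide) h02) (pp (by decide) h03) (pp (by decide) h04) (nn (by decide) h05) (pp (by decide) h12) (pp (by decide) h13) (pp (by decide) h14) (nn (by decide) h15) (pp (by decide) h23) (pp (by decide) h24) (pp (by decide) h25) (pp (by decide) h34) (pp (by decide) h35) (pp (by decide) h45)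
        · exact mk1 13 (pp (by decide) h01) (pp (by decide) h02) (pp (by decide) h03) (pp (by decide) h04) (nn (by decide) h05) (pp (by decide) h12) (pp (by decide) h13) (pp (by decide) h14) (pp (by decide) h15) (pp (by decide) h23) (pp (by decide) h24) (pp (by decide) h25) (pp (by decide) h34) (pp (by decide) h35) (pp (by decide) h45)

theorem data1 : Data 25 P1 Q1 where
  gen := by decide +kernel
  side := by decide +kernel
  gen' := by decide +kernel
  sep := by decide +kernel
  cov := by
    rintro ⟨x, y⟩ hne hs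
    refine cov1 x y ?_ ?_ ?_ ?_ ?_ ?_ ?_ ?_ ?_ ?_ ?_ ?_ ?_ ?_ ?_
    · have h := hne 0 2 (by decide)
      have e : d (toC (P1 0)) (toC (P1 2)) ⟨x, y⟩ = (-12) * x + (-12) * y + 144 := by simp [d, toC, P1]; ring
      rwa [e] at h
    · have h := hne 0 3 (by decide)
      have e : d (toC (P1 0)) (toC (P1 3)) ⟨x, y⟩ = 0 * x + (-24) * y + 0 := by simp [d, toC, P1]; ring
      rwa [e] at h
    · have h := hne 0 4 (by decide)
      have e : d (toC (P1 0)) (toC (P1 4)) ⟨x, y⟩ = 12 * x + (-24) * y + (-144) := by simp [d, toC, P1]; ring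
      rwa [e] at h
    · have h := hne 1 3 (by decide)
      have e : d (toC (P1 1)) (toC (P1 3)) ⟨x, y⟩ = 18 * x + (-24) * y + 216 := by simp [d, toC, P1]; ring
      rwa [e] at h
    · have h := hne 1 4 (by decide)
      have e : d (toC (P1 1)) (toC (P1 4)) ⟨x, y⟩ = 30 * x + (-24) * y + 72 := by simp [d, toC, P1]; ring
      rwa [e] at h
    · have h := hne 1 5 (by decide)
      have e : d (toC (P1 1)) (toC (P1 5)) ⟨x, y⟩ = 30 * x + (-12) * y + (-144) := by simp [d, toC, P1]; ring
      rwa [e] at h
    · have h := hne 2 4 (by decide)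
      have e : d (toC (P1 2)) (toC (P1 4)) ⟨x, y⟩ = 24 * x + (-12) * y + 144 := by simp [d, toC, P1]; ring
      rwa [e] at h
    · have h := hne 2 5 (by decide)
      have e : d (toC (P1 2)) (toC (P1 5)) ⟨x, y⟩ = 24 * x + 0 * y + 0 := by simp [d, toC, P1]; ring
      rwa [e] at h
    · have h := hne 3 5 (by decide)
      have e : d (toC (P1 3)) (toC (P1 5)) ⟨x, y⟩ = 12 * x + 12 * y + 144 := by simp [d, toC, P1]; ring
      rwa [e] at h
    · have h := hs 0
      have e : d (toC (P1 0)) (toC (P1 (0 + 1))) ⟨x, y⟩ = (-18) * x + 0 * y + 216 := by simp [d, toC, P1]; ring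
      rwa [e] at h
    · have h := hs 1
      have e : d (toC (P1 1)) (toC (P1 (1 + 1))) ⟨x, y⟩ = 6 * x + (-12) * y + 144 := by simp [d, toC, P1]; ring
      rwa [e] at h
    · have h := hs 2
      have e : d (toC (P1 2)) (toC (P1 (2 + 1))) ⟨x, y⟩ = 12 * x + (-12) * y + 144 := by simp [d, toC, P1]; ring
      rwa [e] at h
    · have h := hs 3
      have e : d (toC (P1 3)) (toC (P1 (3 + 1))) ⟨x, y⟩ = 12 * x + 0 * y + 144 := by simp [d, toC, P1]; ring
      rwa [e] at h
    · have h := hs 4
      have e : d (toC (P1 4)) (toC (P1 (4 + 1))) ⟨x, y⟩ = 0 * x + 12 * y + 144 := by simp [d, toC, P1]; ring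
      rwa [e] at h
    · have h := hs 5
      have e : d (toC (P1 5)) (toC (P1 (5 + 1))) ⟨x, y⟩ = -(12 * x + (-12) * y + (-144)) := by
        rw [show (5 : Fin 6) + 1 = 0 from rfl]; simp [d, toC, P1]; ring
      rw [e] at h; linarith

end Pool.Agent.Lib.MP_41af23_an
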